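import Mathlib
import Pool.Agent.Helper97_LC.Theta

/-!
# Lightface absoluteness for stationary preserving forcing and projective operators

Assume the lightface axiom `A(H(ω₁), Σ_ω, Stat-pres)`. Let `ψ` be a formula in the language of
`H(ω₁)` and let `A` be a set of countable ordinals such that the families
`ℰ(δ) = {R : ψ(δ, A ∩ δ, R)}`, for `δ < ω₁`, are not changed by forcings preserving stationary
subsets of `ω₁`. (For instance `ℰ(δ)` is the set of the subsets of `δ` in `M(A ∩ δ)`, where `M` is
a projectively definable inner model operator which is absolute for such forcings.) Then there is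
a closed unbounded set `C` of countable ordinals such that for stationarily many `δ` no member of
`ℰ(δ)` is an increasing sequence of type `ω` cofinal in `δ`, or a cofinal subset of `δ` almost
contained in `C`.
-/

set_option autoImplicit false

namespace Pool.Agent.Results.MP_784a63_lc.WeakSharps

open Pool.Agent.Helper97.LC

theorem result (hax : LightfaceStatPres) (ψ : Fm) (A : Set Om) (hfr : Frozen ψ A) :
    ∃ C : Set Om, IsClub C ∧ IsStationary {δ | ¬ ∃ R : Om → ℕ → Prop,
      Bdd R ∧ Holds ψ δ (initA A δ) R ∧ (Ladder δ R ∨ AlmostIn C δ R)} := by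
  classical
  by_contra hcon
  have hG : Guess ψ A := by
    intro f
    by_contra hno
    push Not at hno
    refine hcon ⟨{γ | ClosedUnder f γ}, isClub_closed f, ?_⟩
    rw [stationary_iff]
    intro g
    obtain ⟨δ, hδ, hno'⟩ := hno g
    refine ⟨δ, ?_, hδ⟩
    rintro ⟨R, h1, h2, h3⟩
    rcases h3 with h3 | h3
    · exact (hno' R h1 h2).1 h3
    · exact (hno' R h1 h2).2 h3
  have hne : Nonempty (Cnd ψ A) := by
    refine ⟨⟨⟨default, fun _ _ => False, ⟨?_, ?_, ?_, ?_⟩⟩, ∅, ∅, by simp⟩⟩
    · intro ξ hξ
      exact absurd hξ (not_lt.mpr (default_le ξ))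
    · intro ξ hξ
      exact absurd hξ (not_lt.mpr (default_le ξ))
    · intro ξ hξ
      exact absurd hξ (not_lt.mpr (default_le ξ))
    · intro l hl
      have : l = default := le_antisymm hl (default_le l)
      subst this
      exact ⟨_, leg_zero _⟩
  set K := ψ.bd + 2 with hK
  have h1 := cnd_theta (K := K) (Z := K + 6) hG hfr (by omega) (by omega) le_rfl
  have h2 := (hax (Cnd ψ A) (statPres_cnd hG)
    (thetaF K (K + 6) (chiF ψ K) (FiF K (K + 6)) (PsF K (K + 6)))).mpr h1
  let I := (Cardinal.aleph 2).ord.ToType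
  have hI : ¬ Cardinal.mk I ≤ Cardinal.aleph 1 := by
    rw [Cardinal.mk_ord_toType, not_le, Cardinal.aleph_lt_aleph]
    exact_mod_cast (by norm_num : (1 : ℕ) < 2)
  have hne2 : Nonempty (Pool.Agent.H631R2.Cond (I × ℕ)) := ⟨⟨∅, by simp⟩⟩
  have hst : StatPres (Pool.Agent.H631R2.Cond (I × ℕ)) := statPres_of_ccc fun W hW => by
    rw [← Cardinal.le_aleph0_iff_set_countable]
    exact Pool.Agent.H631R2.Cond.ccc W hW
  have h3 := (hax _ hst (thetaF K (K + 6) (chiF ψ K) (FiF K (K + 6)) (PsF K (K + 6)))).mp h2
  exact cohen_not_theta (by omega) (by omega) (bd_chiF ψ K (K + 6) (by omega) (by omega) le_rfl)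
    (bd_FiF K (K + 6) le_rfl) (bd_PsF K (K + 6) le_rfl) hI _ h3

end Pool.Agent.Results.MP_784a63_lc.WeakSharps
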